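import Mathlib
import Pool.Agent.H40.PRDefs
import Pool.Agent.H40.PRLow2
import Pool.Agent.H40.PRUpper2
import Pool.Agent.H27.XZ.RunLo
import Pool.Agent.H27.XZ.RunUp

set_option autoImplicit false

open H40.Prim
open scoped ENNReal

namespace Pool.Agent.Results.MP_13978b_nt.InfThreshold

theorem T_eq {x : ℝ} (hx : 0 ≤ x) : T x = ENNReal.ofReal (H40.PR.TR x) := by
  unfold T fSum H40.PR.TR
  rw [tsum_subtype {p : ℕ | p.Prime} (fun n => ENNReal.ofReal (f x n)),
    ENNReal.ofReal_tsum_of_nonneg (H40.PR.tp_nonneg hx) (H40.PR.summable_tp hx)]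
  apply tsum_congr
  intro n
  unfold H40.PR.tp
  by_cases h : n.Prime
  · rw [if_pos h, Set.indicator_of_mem (show n ∈ {p : ℕ | p.Prime} from h)]; rfl
  · rw [if_neg h, Set.indicator_of_notMem (show n ∉ {p : ℕ | p.Prime} from h), ENNReal.ofReal_zero]

theorem S_ge_one {x : ℝ} (hx : 0 ≤ x) : 1 ≤ S x := by
  have key : ∀ c : ℝ, 0 ≤ c → c < 1 → ENNReal.ofReal c ≤ S x := by
    intro c hc0 hc1
    obtain ⟨k, hk, hlt⟩ := H40.PR.upper_main hx hc0 hc1
    set A : Set ℕ := {n : ℕ | ArithmeticFunction.cardFactors n = k} with hA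
    have hprim : IsPrimitive A := by
      have hpos : ∀ a ∈ A, 0 < a := by
        intro a ha
        have ha' : ArithmeticFunction.cardFactors a = k := ha
        rcases Nat.eq_zero_or_pos a with h | h
        · rw [h] at ha'; simp at ha'; omega
        · exact h
      refine ⟨hpos, ?_⟩
      intro a ha b hb hab
      have ha' : ArithmeticFunction.cardFactors a = k := ha
      have hb' : ArithmeticFunction.cardFactors b = k := hb
      exact H40.PR.eq_of_dvd_Omega (hpos b hb).ne' hab (by rw [ha', hb'])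
    have hne : A ≠ {1} := by
      intro h
      have h1 : (1:ℕ) ∈ A := by rw [h]; rfl
      have h1' : ArithmeticFunction.cardFactors 1 = k := h1
      simp at h1'; omega
    have hsum : ∑' n : ℕ, (if ArithmeticFunction.cardFactors n = k then
        ENNReal.ofReal (H40.PR.fx x n) else 0) = fSum x A := by
      unfold fSum
      rw [tsum_subtype A (fun n => ENNReal.ofReal (f x n))]
      apply tsum_congr
      intro n
      by_cases h : ArithmeticFunction.cardFactors n = k
      · rw [if_pos h, Set.indicator_of_mem (show n ∈ A from h)]; rfl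
      · rw [if_neg h, Set.indicator_of_notMem (show n ∉ A from h)]
    rw [hsum] at hlt
    refine hlt.le.trans ?_
    unfold S
    exact le_iSup₂ (f := fun A (_ : A ∈ {A : Set ℕ | IsPrimitive A ∧ A ≠ {1}}) => fSum x A) A
      ⟨hprim, hne⟩
  refine le_of_forall_lt (fun c hc => ?_)
  have hct : c ≠ ⊤ := (hc.trans ENNReal.one_lt_top).ne
  have hc1 : c.toReal < 1 := by
    have := (ENNReal.toReal_lt_toReal hct ENNReal.one_ne_top).2 hc
    simpa using this
  have hc0 : 0 ≤ c.toReal := ENNReal.toReal_nonneg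
  have h := key ((c.toReal + 1)/2) (by linarith) (by linarith)
  refine lt_of_lt_of_le ?_ h
  rw [ENNReal.lt_ofReal_iff_toReal_lt hct]
  linarith

theorem S_le {x₀ x : ℝ} (h1 : 18/25 ≤ x₀) (h2 : x₀ < 1) (hT : H40.PR.TR x₀ = 1) (hx : 0 ≤ x)
    (hxx : x ≤ x₀) : S x ≤ T x := by
  rw [T_eq hx]
  unfold S
  refine iSup₂_le (fun A hA => ?_)
  obtain ⟨⟨hpos, hprim⟩, hne⟩ := hA
  have h1A : (1:ℕ) ∉ A := by
    intro h
    apply hne
    ext b
    constructor
    · intro hb; exact (hprim 1 h b hb (one_dvd b)).symm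
    · intro hb; rw [Set.mem_singleton_iff] at hb; rw [hb]; exact h
  have htwo : ∀ n ∈ A, 2 ≤ n := by
    intro n hn
    have h3 := hpos n hn
    rcases Nat.lt_or_ge n 2 with h4 | h4
    · have : n = 1 := by omega
      rw [this] at hn; exact absurd hn h1A
    · exact h4
  unfold fSum
  rw [ENNReal.tsum_eq_iSup_sum]
  refine iSup_le (fun F => ?_)
  have hF : ∑ n ∈ F, ENNReal.ofReal (f x n) =
      ENNReal.ofReal (∑ n ∈ F.map (Function.Embedding.subtype (· ∈ A)), H40.PR.fx x n) := by
    rw [Finset.sum_map, ENNReal.ofReal_sum_of_nonneg (fun n _ => H40.PR.fx_nonneg hx _)]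
    rfl
  rw [hF]
  apply ENNReal.ofReal_le_ofReal
  apply H40.PR.low_real h1 h2 hT hx hxx
  · intro n hn
    rw [Finset.mem_map] at hn
    obtain ⟨m, _, rfl⟩ := hn
    exact htwo _ m.2
  · intro a ha b hb hab
    rw [Finset.mem_map] at ha hb
    obtain ⟨a', _, rfl⟩ := ha
    obtain ⟨b', _, rfl⟩ := hb
    exact hprim _ a'.2 _ b'.2 hab

/-- The exceptional set is the open half-line starting at the unique solution of `T(x) = 1`,
which is `0.8035236..`. -/
theorem result : ∃ x₀ : ℝ, 0.8035236 < x₀ ∧ x₀ < 0.8035237 ∧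
    (∀ x : ℝ, 0 ≤ x → (T x = 1 ↔ x = x₀)) ∧
    exceptional = Set.Ioi x₀ ∧ sInf exceptional = x₀ := by
  obtain ⟨x₀, h1, h2, hT⟩ := H40.PR.exists_x0
  have h0 : 0 ≤ x₀ := by linarith
  have hlo : (0.8035236 : ℝ) < x₀ := by
    have h3 := Pool.Agent.H27.XZ.one_lt_TR
    rw [show (8035236 / 10 ^ 7 : ℝ) = 0.8035236 by norm_num] at h3
    rcases lt_trichotomy x₀ 0.8035236 with h4 | h4 | h4
    · have := H40.PR.TR_strictAnti h0 h4
      linarith
    · rw [h4] at hT
      linarith
    · exact h4
  have hup : x₀ < 0.8035237 := by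
    have h3 := Pool.Agent.H27.XZ.TR_lt_one
    rw [show (8035237 / 10 ^ 7 : ℝ) = 0.8035237 by norm_num] at h3
    rcases lt_trichotomy x₀ 0.8035237 with h4 | h4 | h4
    · exact h4
    · rw [h4] at hT
      linarith
    · have := H40.PR.TR_strictAnti (by norm_num) h4
      linarith
  have hI : exceptional = Set.Ioi x₀ := by
    ext x
    constructor
    · rintro ⟨hx, hlt⟩
      rw [Set.mem_Ioi]
      by_contra hle
      push Not at hle
      exact absurd hlt (not_lt.2 (S_le h1 h2 hT hx hle))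
    · intro hx
      rw [Set.mem_Ioi] at hx
      have hx0 : 0 ≤ x := h0.trans hx.le
      refine ⟨hx0, lt_of_lt_of_le ?_ (S_ge_one hx0)⟩
      rw [T_eq hx0, ← ENNReal.ofReal_one]
      rw [ENNReal.ofReal_lt_ofReal_iff one_pos, ← hT]
      exact H40.PR.TR_strictAnti h0 hx
  refine ⟨x₀, hlo, hup, ?_, hI, ?_⟩
  · intro x hx
    rw [T_eq hx]
    constructor
    · intro h
      have h3 : H40.PR.TR x = 1 := by
        have := congrArg ENNReal.toReal h
        rwa [ENNReal.toReal_ofReal (H40.PR.TR_nonneg hx), ENNReal.toReal_one] at this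
      rcases lt_trichotomy x x₀ with h4 | h4 | h4
      · have := H40.PR.TR_strictAnti hx h4
        linarith
      · exact h4
      · have := H40.PR.TR_strictAnti h0 h4
        linarith
    · rintro rfl
      rw [hT, ENNReal.ofReal_one]
  · rw [hI, csInf_Ioi]

end Pool.Agent.Results.MP_13978b_nt.InfThreshold
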